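import Mathlib
import Pool.Agent.Lib.MP_03e5d0_nt.FF.Top

set_option autoImplicit false

namespace Pool.Agent.Lib.MP_03e5d0_nt.Old.FunctionField

open Polynomial Filter Pool.Agent.Lib.MP_03e5d0_nt.FF

/-- Let `F` be finite of odd order and let `A`, `B`, `A - B` have the same positive degree with
`N = A B (A - B)` squarefree.  Among the `D` of degree `d` with `N D` squarefree, the proportion
of those for which the twist `y^2 = x (x - D A) (x - D B)` over `F(t)` has analytic rank `r`
tends to one half as `d` tends to infinity, for `r = 0` and for `r = 1`. -/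
theorem kept (F : Type) [Field F] [Fintype F] (hq : Odd (Fintype.card F)) (A B : F[X])
    (hsq : Squarefree (A * B * (A - B))) (hA : 0 < A.natDegree)
    (hB : B.natDegree = A.natDegree) (hC : (A - B).natDegree = A.natDegree)
    (r : ℕ) (hr : r = 0 ∨ r = 1) :
    Tendsto (fun d : ℕ =>
      (({D : F[X] | D.natDegree = d ∧ Squarefree (A * B * (A - B) * D) ∧
        HasAnRank (twist A B D) r}.ncard : ℝ)) /
      ({D : F[X] | D.natDegree = d ∧ Squarefree (A * B * (A - B) * D)}.ncard : ℝ))
      atTop (nhds (1 / 2)) :=
  goldfeld hq hsq hA hB hC (by omega)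

end Pool.Agent.Lib.MP_03e5d0_nt.Old.FunctionField
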